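import Pool.Agent.Helper69.ST.Goals

/-!
Project ST, packet CB: the square root of the derivative and its power series in `z^p`.
-/

set_option autoImplicit false

open MeasureTheory Set Complex Metric Filter
open scoped ContDiff Topology ENNReal

namespace Pool.Agent.Helper22.ST.CB

open Pool.Agent.Helper69.ST

/-- A holomorphic square root of a zero-free function on the disk, invariant under the rotation. -/
theorem sqrt_ball (g : ℂ → ℂ) (w : ℂ) (hg : DifferentiableOn ℂ g (ball 0 1))
    (hne : ∀ z ∈ ball (0 : ℂ) 1, g z ≠ 0) (hw : ‖w‖ = 1)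
    (hrot : ∀ z ∈ ball (0 : ℂ) 1, g (w * z) = g z) :
    ∃ h : ℂ → ℂ, DifferentiableOn ℂ h (ball 0 1) ∧ (∀ z ∈ ball (0 : ℂ) 1, h z ^ 2 = g z) ∧
      ∀ z ∈ ball (0 : ℂ) 1, h (w * z) = h z := by
  have hmem : ∀ z ∈ ball (0 : ℂ) 1, w * z ∈ ball (0 : ℂ) 1 := by
    intro z hz
    rw [mem_ball_zero_iff] at hz ⊢
    rw [norm_mul, hw, one_mul]
    exact hz
  have h0 : (0 : ℂ) ∈ ball (0 : ℂ) 1 := mem_ball_self one_pos
  have hpre : IsPreconnected (ball (0 : ℂ) 1) := (convex_ball 0 1).isPreconnected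
  have hg' : DifferentiableOn ℂ (deriv g) (ball 0 1) := hg.deriv isOpen_ball
  have hq : DifferentiableOn ℂ (fun z => deriv g z / g z) (ball 0 1) := hg'.div hg hne
  obtain ⟨L, hL⟩ := hq.isExactOn_ball
  have hgd : ∀ z ∈ ball (0 : ℂ) 1, HasDerivAt g (deriv g z) z := fun z hz =>
    (hg.differentiableAt (isOpen_ball.mem_nhds hz)).hasDerivAt
  -- `g exp (-L)` is constant
  have hF : ∀ z ∈ ball (0 : ℂ) 1, HasDerivAt (fun z => g z * exp (-L z)) 0 z := by
    intro z hz
    have h1 := (hgd z hz).mul ((hL z hz).neg.cexp)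
    refine h1.congr_deriv ?_
    have := hne z hz
    field_simp
    ring
  have hFc : ∀ z ∈ ball (0 : ℂ) 1, g z * exp (-L z) = g 0 * exp (-L 0) := by
    intro z hz
    exact isOpen_ball.is_const_of_deriv_eq_zero hpre
      (fun x hx => (hF x hx).differentiableAt.differentiableWithinAt)
      (fun x hx => (hF x hx).deriv) hz h0
  -- `L (w z) = L z`
  have hD : ∀ z ∈ ball (0 : ℂ) 1, HasDerivAt (fun z => L (w * z) - L z) 0 z := by
    intro z hz
    have hwz := hmem z hz
    have h1 : HasDerivAt (fun z : ℂ => w * z) w z := by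
      simpa using (hasDerivAt_id z).const_mul w
    have h2 : HasDerivAt (fun z => L (w * z)) (deriv g (w * z) / g (w * z) * w) z :=
      (hL (w * z) hwz).comp z h1
    have h3 : HasDerivAt (fun z => g (w * z)) (deriv g (w * z) * w) z :=
      (hgd (w * z) hwz).comp z h1
    have h4 : HasDerivAt (fun z => g (w * z)) (deriv g z) z := by
      refine (hgd z hz).congr_of_eventuallyEq ?_
      filter_upwards [isOpen_ball.mem_nhds hz] with y hy using hrot y hy
    have h5 := h3.unique h4
    refine (h2.sub (hL z hz)).congr_deriv ?_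
    change deriv g (w * z) / g (w * z) * w - deriv g z / g z = 0
    rw [hrot z hz, ← h5]
    ring
  have hLr : ∀ z ∈ ball (0 : ℂ) 1, L (w * z) = L z := by
    intro z hz
    have h1 : (fun z => L (w * z) - L z) z = (fun z => L (w * z) - L z) 0 :=
      isOpen_ball.is_const_of_deriv_eq_zero hpre
      (fun x hx => (hD x hx).differentiableAt.differentiableWithinAt)
      (fun x hx => (hD x hx).deriv) hz h0
    simp only [mul_zero, sub_self] at h1
    exact sub_eq_zero.mp h1
  refine ⟨fun z => exp ((L z - L 0 + log (g 0)) / 2), ?_, ?_, ?_⟩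
  · have hLd : DifferentiableOn ℂ L (ball 0 1) := fun x hx =>
      (hL x hx).differentiableAt.differentiableWithinAt
    exact (((hLd.sub_const _).add_const _).div_const _).cexp
  · intro z hz
    rw [← exp_nat_mul]
    have h1 : ((2 : ℕ) : ℂ) * ((L z - L 0 + log (g 0)) / 2) = L z + -L 0 + log (g 0) := by
      push_cast; ring
    rw [h1, exp_add, exp_add, exp_log (hne 0 h0)]
    have h2 := hFc z hz
    have h3 : exp (L z) * exp (-L z) = 1 := by rw [← exp_add]; simp
    calc exp (L z) * exp (-L 0) * g 0 = exp (L z) * (g 0 * exp (-L 0)) := by ring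
      _ = exp (L z) * (g z * exp (-L z)) := by rw [h2]
      _ = (exp (L z) * exp (-L z)) * g z := by ring
      _ = g z := by rw [h3, one_mul]
  · intro z hz
    simp only [hLr z hz]

theorem t : S_CB := by
  intro p w f hp hw hf hrot hne
  have hp0 : 0 < p := by omega
  have hw1 : ‖w‖ = 1 := hw.norm'_eq_one (by omega)
  have hg : DifferentiableOn ℂ (deriv f) (ball 0 1) := hf.deriv isOpen_ball
  have hmem : ∀ z ∈ ball (0 : ℂ) 1, w * z ∈ ball (0 : ℂ) 1 := by
    intro z hz
    rw [mem_ball_zero_iff] at hz ⊢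
    rw [norm_mul, hw1, one_mul]
    exact hz
  have hfd : ∀ z ∈ ball (0 : ℂ) 1, HasDerivAt f (deriv f z) z := fun z hz =>
    (hf.differentiableAt (isOpen_ball.mem_nhds hz)).hasDerivAt
  have hw0 : w ≠ 0 := hw.ne_zero (by omega)
  have hrot' : ∀ z ∈ ball (0 : ℂ) 1, deriv f (w * z) = deriv f z := by
    intro z hz
    have h1 : HasDerivAt (fun z : ℂ => w * z) w z := by
      simpa using (hasDerivAt_id z).const_mul w
    have h3 : HasDerivAt (fun z => f (w * z)) (deriv f (w * z) * w) z :=
      (hfd (w * z) (hmem z hz)).comp z h1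
    have h4 : HasDerivAt (fun z => f (w * z)) (w * deriv f z) z := by
      refine ((hfd z hz).const_mul w).congr_of_eventuallyEq ?_
      filter_upwards [isOpen_ball.mem_nhds hz] with y hy using hrot y hy
    have h5 := h3.unique h4
    rw [mul_comm] at h5
    exact mul_left_cancel₀ hw0 h5
  obtain ⟨h, hh, hsq, hr⟩ := sqrt_ball (deriv f) w hg hne hw1 hrot'
  -- invariance under powers
  have hmemj : ∀ (j : ℕ), ∀ z ∈ ball (0 : ℂ) 1, w ^ j * z ∈ ball (0 : ℂ) 1 := by
    intro j z hz
    rw [mem_ball_zero_iff] at hz ⊢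
    rw [norm_mul, norm_pow, hw1, one_pow, one_mul]
    exact hz
  have hrj : ∀ (j : ℕ), ∀ z ∈ ball (0 : ℂ) 1, h (w ^ j * z) = h z := by
    intro j
    induction j with
    | zero => intro z _; simp
    | succ j ih =>
      intro z hz
      rw [pow_succ', mul_assoc, hr _ (hmemj j z hz), ih z hz]
  set a : ℕ → ℂ := fun n => (n.factorial : ℂ)⁻¹ * iteratedDeriv n h 0 with ha
  have hsum : ∀ z ∈ ball (0 : ℂ) 1, HasSum (fun n : ℕ => a n * z ^ n) (h z) := by
    intro z hz
    have h1 := hasSum_taylorSeries_on_ball hh hz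
    refine h1.congr_fun ?_ |> fun h => h
    intro n
    simp only [ha, smul_eq_mul, sub_zero]
    ring
  -- average
  have hchar : ∀ n : ℕ, ∑ j ∈ Finset.range p, (w ^ j) ^ n = if p ∣ n then (p : ℂ) else 0 := by
    intro n
    have h1 : ∑ j ∈ Finset.range p, (w ^ j) ^ n = ∑ j ∈ Finset.range p, (w ^ n) ^ j := by
      refine Finset.sum_congr rfl fun j _ => ?_
      rw [← pow_mul, ← pow_mul, mul_comm]
    rw [h1]
    split_ifs with hd
    · have h2 : w ^ n = 1 := (hw.pow_eq_one_iff_dvd n).mpr hd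
      simp [h2]
    · have h2 : w ^ n ≠ 1 := fun h => hd ((hw.pow_eq_one_iff_dvd n).mp h)
      have h3 := geom_sum_mul (w ^ n) p
      have h4 : (w ^ n) ^ p = 1 := by
        rw [← pow_mul, mul_comm, pow_mul, hw.pow_eq_one, one_pow]
      rw [h4, sub_self] at h3
      exact (mul_eq_zero.mp h3).resolve_right (sub_ne_zero.mpr h2)
  have hpC : (p : ℂ) ≠ 0 := by exact_mod_cast hp0.ne'
  have hsum2 : ∀ z ∈ ball (0 : ℂ) 1, HasSum (fun n : ℕ => if p ∣ n then a n * z ^ n else 0) (h z) := by
    intro z hz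
    have h1 : HasSum (fun n : ℕ => ∑ j ∈ Finset.range p, a n * (w ^ j * z) ^ n)
        (∑ j ∈ Finset.range p, h (w ^ j * z)) :=
      hasSum_sum fun j _ => hsum _ (hmemj j z hz)
    have h2 : ∑ j ∈ Finset.range p, h (w ^ j * z) = (p : ℂ) * h z := by
      rw [Finset.sum_congr rfl fun j _ => hrj j z hz]
      simp
    rw [h2] at h1
    have h3 := h1.mul_left ((p : ℂ)⁻¹)
    rw [inv_mul_cancel_left₀ hpC] at h3
    refine h3.congr_fun ?_ |> fun h => h
    intro n
    have h4 : ∑ j ∈ Finset.range p, a n * (w ^ j * z) ^ n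
        = a n * z ^ n * ∑ j ∈ Finset.range p, (w ^ j) ^ n := by
      rw [Finset.mul_sum]
      refine Finset.sum_congr rfl fun j _ => ?_
      rw [mul_pow]
      ring
    rw [h4, hchar]
    split_ifs with hd
    · field_simp
    · simp
  have hinj : Function.Injective (fun n : ℕ => p * n) := fun x y hxy =>
    Nat.eq_of_mul_eq_mul_left hp0 hxy
  have hsum3 : ∀ z ∈ ball (0 : ℂ) 1, HasSum (fun n : ℕ => a (p * n) * z ^ (p * n)) (h z) := by
    intro z hz
    have h1 := hsum2 z hz
    rw [← hinj.hasSum_iff] at h1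
    · refine h1.congr_fun ?_ |> fun h => h
      intro n
      simp
    · intro n hn
      have : ¬ p ∣ n := fun ⟨m, hm⟩ => hn ⟨m, hm.symm⟩
      simp [this]
  refine ⟨fun n => a (p * n), ?_, ?_, ?_⟩
  · intro r hr0 hr1
    set ρ : ℝ := r ^ ((1 : ℝ) / p) with hρ
    have hρ0 : 0 ≤ ρ := Real.rpow_nonneg hr0 _
    have hρp : ρ ^ p = r := by
      rw [hρ, ← Real.rpow_natCast, ← Real.rpow_mul hr0]
      rw [one_div, inv_mul_cancel₀ (by exact_mod_cast hp0.ne'), Real.rpow_one]
    have hρ1 : ρ < 1 := by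
      rw [hρ]
      exact Real.rpow_lt_one hr0 hr1 (by positivity)
    have hz : (ρ : ℂ) ∈ ball (0 : ℂ) 1 := by
      rw [mem_ball_zero_iff, norm_real, Real.norm_of_nonneg hρ0]
      exact hρ1
    have h1 := (hsum3 _ hz).summable.norm
    refine h1.congr fun n => ?_
    rw [norm_mul, norm_pow, norm_real, Real.norm_of_nonneg hρ0, pow_mul, hρp]
  · intro z hz
    have h1 : hfun p (fun n => a (p * n)) z = h z := (hsum3 z hz).tsum_eq
    rw [h1, hsq z hz]
    exact hfd z hz
  · intro z hz h0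
    have h1 : hfun p (fun n => a (p * n)) z = h z := (hsum3 z hz).tsum_eq
    rw [h1] at h0
    have h2 := hsq z hz
    rw [h0] at h2
    exact hne z hz (by rw [← h2]; simp)

end Pool.Agent.Helper22.ST.CB
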